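import Mathlib
import Pool.Agent.Work.MP_06621a_co.Pal

set_option autoImplicit false

namespace Pool.Agent.Results.MP_06621a_co.PalSubseqMax

universe u

/-- `SP w` is the number of distinct non-empty palindromes that occur as scattered subwords
(subsequences) of the word `w`. -/
noncomputable def SP {α : Type*} (w : List α) : ℕ :=
  Set.ncard {v : List α | v.Sublist w ∧ v ≠ [] ∧ v.reverse = v}

/-- `numLetters w` is the number of distinct letters occurring in `w`. -/
noncomputable def numLetters {α : Type*} (w : List α) : ℕ :=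
  Set.ncard {a : α | a ∈ w}

/-- `M n = 3 * 2 ^ (⌈n/2⌉ - 1) - 2` for odd `n` and `2 ^ (n/2 + 1) - 2` for even `n`. -/
def M (n : ℕ) : ℕ :=
  if Odd n then 3 * 2 ^ ((n + 1) / 2 - 1) - 2 else 2 ^ (n / 2 + 1) - 2

open Pool.Agent.Work.MP_06621a_co in
lemma SP_eq {α : Type*} [DecidableEq α] (w : List α) : SP w + 1 = (P w).card := by
  have h : {v : List α | v.Sublist w ∧ v ≠ [] ∧ v.reverse = v} = ((P w).erase [] : Finset _) := by
    ext v
    simp only [Set.mem_ofPred_eq, Finset.coe_erase, Set.mem_sdiff, Finset.mem_coe, mem_P,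
      Set.mem_singleton_iff]
    tauto
  have hnil : [] ∈ P w := mem_P.mpr ⟨List.nil_sublist _, rfl⟩
  have hpos : 0 < (P w).card := Finset.card_pos.mpr ⟨_, hnil⟩
  rw [SP, h, Set.ncard_coe_finset, Finset.card_erase_of_mem hnil]
  omega

open Pool.Agent.Work.MP_06621a_co in
lemma numLetters_eq {α : Type*} [DecidableEq α] (w : List α) : numLetters w = (Lt w).card := by
  have h : {a : α | a ∈ w} = (Lt w : Finset _) := by
    ext a
    simp [Lt]
  rw [numLetters, h, Set.ncard_coe_finset]

open Pool.Agent.Work.MP_06621a_co in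
lemma M_eq (n : ℕ) : M n + 1 = F n := by
  unfold M
  split_ifs with h
  · obtain ⟨k, rfl⟩ := h
    have h1 := F_odd k
    have h2 : (2 * k + 1 + 1) / 2 - 1 = k := by omega
    rw [h2]
    have : 1 ≤ 2 ^ k := Nat.one_le_two_pow
    omega
  · rw [Nat.not_odd_iff_even] at h
    obtain ⟨k, rfl⟩ := h
    have h1 := F_even k
    have h2 : (k + k) / 2 + 1 = k + 1 := by omega
    rw [h2, ← two_mul]
    have : 2 ≤ 2 ^ (k + 1) := by
      rw [pow_succ]
      have : 1 ≤ 2 ^ k := Nat.one_le_two_pow
      omega
    omega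

/-- For every `n ≥ 1` the maximum of `SP` over all words of length `n` (over any alphabet) is
`M n`, and a word of length `n` attains it only if its number of distinct letters is
`⌈n/2⌉` (`n` odd), respectively `n/2` or `n/2 + 1` (`n` even). -/
theorem result (n : ℕ) (_hn : 1 ≤ n) :
    (∃ w : List ℕ, w.length = n ∧ SP w = M n) ∧
    ∀ (α : Type u) (w : List α), w.length = n →
      SP w ≤ M n ∧
      (SP w = M n →
        (Odd n → numLetters w = (n + 1) / 2) ∧
        (Even n → numLetters w = n / 2 ∨ numLetters w = n / 2 + 1)) := by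
  classical
  constructor
  · refine ⟨Pool.Agent.Work.MP_06621a_co.W n, Pool.Agent.Work.MP_06621a_co.W_length n, ?_⟩
    have h1 := Pool.Agent.Work.MP_06621a_co.W_card n
    have h2 := Pool.Agent.Work.MP_06621a_co.card_le (Pool.Agent.Work.MP_06621a_co.W n)
    rw [Pool.Agent.Work.MP_06621a_co.W_length] at h2
    have h3 := SP_eq (Pool.Agent.Work.MP_06621a_co.W n)
    have h4 := M_eq n
    omega
  · intro α w hw
    have h1 := SP_eq w
    have h2 := Pool.Agent.Work.MP_06621a_co.card_le w
    have h3 := M_eq n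
    rw [hw] at h2
    refine ⟨by omega, fun heq => ?_⟩
    have h5 := Pool.Agent.Work.MP_06621a_co.eq_case w (by rw [hw]; omega)
    rw [hw] at h5
    rw [numLetters_eq]
    exact h5

end Pool.Agent.Results.MP_06621a_co.PalSubseqMax
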